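import Pool.Agent.W792.WA.Br4

/-!
The uniform Anderson model on `ℓ²(ℤ^d)` with arbitrary disorder `c` and kinetic energy
`-Δ + g(-Δ)`, the symbol of `g(-Δ)` small in `L^p`, `p < 2`: the spectrum in a given interval is
almost surely purely absolutely continuous.
-/

namespace Pool.Agent.Results.MP_562b47_mp.ACSpectrumAtEveryC

open MeasureTheory

noncomputable section

/-- The uniform law on `[-c, c]`. -/
def unif (c : ℝ) : Measure ℝ :=
  ENNReal.ofReal (1 / (2 * c)) • volume.restrict (Set.Icc (-c) c)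

/-- The hopping amplitudes of `g(-Δ)` on `ℤ^d`: the Fourier coefficients of the symbol
`g(∑ i (2 - 2 cos (2 π k_i)))`. -/
def hopping (g : ℝ → ℝ) (d : ℕ) (x : Fin d → ℤ) : ℂ :=
  UnitAddTorus.mFourierCoeff
    (fun k : UnitAddTorus (Fin d) => ((g (∑ i, (2 - 2 * (fourier 1 (k i)).re)) : ℝ) : ℂ)) x

/-- `(Δ_ω + g(-Δ)) u (j)`, where `(Δ_ω u)(j) = -∑_{|n|=1} (u(j+n) - u(j)) + ω_j u(j)`. -/
def H (g : ℝ → ℝ) {d : ℕ} (ω : (Fin d → ℤ) → ℝ) (u : (Fin d → ℤ) → ℂ) (j : Fin d → ℤ) : ℂ :=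
  -(∑ i : Fin d, ((u (j + Pi.single i 1) - u j) + (u (j - Pi.single i 1) - u j)))
    + (∑' n, hopping g d (j - n) * u n) + (ω j : ℂ) * u j

/-- `u` is square summable and `(H - z) u = δ_x`, i.e. `u = (H - z)⁻¹ δ_x`. -/
def IsGreen (g : ℝ → ℝ) {d : ℕ} (ω : (Fin d → ℤ) → ℝ) (z : ℂ) (x : Fin d → ℤ)
    (u : (Fin d → ℤ) → ℂ) : Prop :=
  Summable (fun y => ‖u y‖ ^ 2) ∧ ∀ y, H g ω u y - z * u y = if y = x then 1 else 0

/-- Purely absolutely continuous spectrum filling the interval `(a₁, a₂)`: for every site `x` the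
spectral measure `μ` of `δ_x`, i.e. the finite measure with
`⟨δ_x, (H - z)⁻¹ δ_x⟩ = ∫ dμ(E) / (E - z)`, has on `(a₁, a₂)` a density `h`, positive almost
everywhere there. -/
def ACOn (g : ℝ → ℝ) {d : ℕ} (ω : (Fin d → ℤ) → ℝ) (a₁ a₂ : ℝ) : Prop :=
  ∀ x : Fin d → ℤ, ∃ (μ : Measure ℝ) (h : ℝ → ℝ), IsFiniteMeasure μ ∧
    (∀ z : ℂ, 0 < z.im → (∃ u, IsGreen g ω z x u) ∧
      ∀ u, IsGreen g ω z x u → u x = ∫ E : ℝ, 1 / ((E : ℂ) - z) ∂μ) ∧
    Measurable h ∧ (∀ᵐ E ∂(volume.restrict (Set.Ioo a₁ a₂)), 0 < h E) ∧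
    μ.restrict (Set.Ioo a₁ a₂)
      = (volume.restrict (Set.Ioo a₁ a₂)).withDensity fun E => ENNReal.ofReal (h E)

theorem ac_of {b : ℝ → ℝ} {d : ℕ} (B : C(UnitAddTorus (Fin d), ℝ))
    (hB : ∀ k, B k = b (W792.LL.lap d k)) {lam : ℝ} {v : (Fin d → ℤ) → ℝ} {a₁ a₂ : ℝ}
    (h : W792.WA.ACIK (W792.LL.lap d + B) lam v a₁ a₂) : ACOn b (fun j => lam * v j) a₁ a₂ := by
  intro x
  obtain ⟨μ, g, h1, h2, h3, h4, h5⟩ := h x
  have e0 : (fun k : UnitAddTorus (Fin d) => ((B k : ℝ) : ℂ))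
      = fun k => ((b (∑ i, (2 - 2 * (fourier 1 (k i)).re)) : ℝ) : ℂ) := by
    funext k
    rw [hB]
    rfl
  refine ⟨μ, g, h1, fun z hz => ?_, h3, h4, h5⟩
  have e : ∀ u, W792.LL.Sol (W792.LL.hopK (W792.LL.lap d + B)) lam v z x u
      ↔ IsGreen b (fun j => lam * v j) z x u := by
    intro u
    rw [W792.WA.Br.sol_iff B lam v z x u, e0]
    unfold IsGreen H
    have e1 : ∀ y : Fin d → ℤ,
        -(∑ i : Fin d, ((u (y + Pi.single i 1) - u y) + (u (y - Pi.single i 1) - u y)))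
          = ∑ i : Fin d, (2 * u y - u (y + Pi.single i 1) - u (y - Pi.single i 1)) := by
      intro y
      rw [← Finset.sum_neg_distrib]
      exact Finset.sum_congr rfl fun i _ => by ring
    simp only [e1]
    rfl
  obtain ⟨⟨w, hw⟩, h6⟩ := h2 z hz
  exact ⟨⟨w, (e w).1 hw⟩, fun u hu => h6 u ((e u).2 hu)⟩

theorem unif_scale {c : ℝ} (hc : 0 < c) : (unif 1).map (fun t => c * t) = unif c := by
  unfold unif
  have hm : Measurable fun t : ℝ => c * t := measurable_const_mul c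
  rw [Measure.map_smul]
  have h1 : (volume.restrict (Set.Icc (-1 : ℝ) 1)).map (fun t => c * t)
      = ((volume : Measure ℝ).map (fun t => c * t)).restrict (Set.Icc (-c) c) := by
    rw [Measure.restrict_map hm measurableSet_Icc]
    congr 2
    ext t
    simp only [Set.mem_Icc, Set.mem_preimage]
    constructor
    · rintro ⟨h1, h2⟩
      constructor <;> nlinarith
    · rintro ⟨h1, h2⟩
      constructor
      · by_contra h
        push Not at h
        nlinarith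
      · by_contra h
        push Not at h
        nlinarith
  rw [h1, Real.map_volume_mul_left hc.ne', Measure.restrict_smul, smul_smul,
    ← ENNReal.ofReal_mul (by norm_num), abs_of_pos (by positivity)]
  congr 2
  field_simp

theorem unif_prob : IsProbabilityMeasure (unif 1) := by
  refine ⟨?_⟩
  unfold unif
  rw [Measure.smul_apply, Measure.restrict_apply MeasurableSet.univ, Set.univ_inter,
    Real.volume_Icc, smul_eq_mul, ← ENNReal.ofReal_mul (by norm_num)]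
  norm_num

theorem vr_unif_pos : 0 < W792.WA.vr (unif 1) := by
  have hp := unif_prob
  have hat : ∀ a : ℝ, unif 1 {a} < 1 := by
    intro a
    unfold unif
    rw [Measure.smul_apply, Measure.restrict_apply (measurableSet_singleton a)]
    have : volume ({a} ∩ Set.Icc (-1 : ℝ) 1) = 0 :=
      measure_mono_null Set.inter_subset_left (measure_singleton a)
    rw [this]
    simp
  have hb : ∀ᵐ x ∂(unif 1), |x| ≤ 1 := by
    unfold unif
    refine Measure.ae_smul_measure ?_ _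
    rw [ae_restrict_iff' measurableSet_Icc]
    exact Filter.Eventually.of_forall fun x hx => abs_le.2 ⟨hx.1, hx.2⟩
  exact W792.WA.Br.vr_pos (unif 1) 1 one_pos hb hat

/-- For all `0 < c₁ ≤ c₂`, all intervals `(a₁, a₂)`, all `1 < p < 2` and all `ε > 0` there is a
bounded continuous function `g`, the symbol of `g(-Δ)` of `L^p` norm to the power `p` at most `ε`,
the hopping amplitudes of `g(-Δ)` at most `ε`, such that for `c₁ ≤ c ≤ c₂` and `ω_j` i.i.d. uniform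
on `[-c, c]` the spectrum of `Δ_ω + g(-Δ)` in `(a₁, a₂)` is almost surely purely absolutely
continuous, and it fills this interval. -/
theorem result (d : ℕ) (hd : 0 < d) (c₁ c₂ a₁ a₂ p ε : ℝ) (hc₁ : 0 < c₁) (hc₂ : c₁ ≤ c₂)
    (ha : a₁ < a₂) (hp₁ : 1 < p) (hp₂ : p < 2) (hε : 0 < ε) :
    ∃ g : ℝ → ℝ, Continuous g ∧ (∃ C : ℝ, ∀ t, |g t| ≤ C) ∧
    (∫ k : UnitAddTorus (Fin d), |g (∑ i, (2 - 2 * (fourier 1 (k i)).re))| ^ p ≤ ε) ∧
    (∀ x, ‖hopping g d x‖ ≤ ε) ∧ ∀ c : ℝ, c₁ ≤ c → c ≤ c₂ →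
      ∀ᵐ ω ∂(Measure.infinitePi fun _ : Fin d → ℤ => unif c), ACOn g ω a₁ a₂ := by
  have hp := unif_prob
  have hv := vr_unif_pos
  have hc20 : 0 < c₂ := hc₁.trans_le hc₂
  have hκ : 0 < min (c₁ ^ 2) (1 / c₂ ^ 2) * W792.WA.vr (unif 1) :=
    mul_pos (lt_min (by positivity) (by positivity)) hv
  obtain ⟨g, hg1, hg2, hg3, hg4, hg5⟩ :=
    W792.WA.Br.np_main d hd a₁ a₂ p _ ε ha hp₁ hp₂ hκ hε
  refine ⟨g, hg1, hg2, hg3, hg4, fun c hc1 hc2 => ?_⟩
  have hc0 : 0 < c := hc₁.trans_le hc1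
  have hm : Measurable fun t : ℝ => c * t := measurable_const_mul c
  have hpc : IsProbabilityMeasure (unif c) := by
    rw [← unif_scale hc0]
    exact Measure.isProbabilityMeasure_map hm.aemeasurable
  have h1 : min (c₁ ^ 2) (1 / c₂ ^ 2) * W792.WA.vr (unif 1) ≤ W792.WA.vr (unif c) := by
    have h2 := W792.WA.Al.vrs (unif 1) c hc0
    rw [unif_scale hc0] at h2
    refine le_trans (mul_le_mul_of_nonneg_right ?_ hv.le) h2
    refine min_le_min (by gcongr) ?_
    gcongr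
  set B : C(UnitAddTorus (Fin d), ℝ) :=
    ⟨fun k => g (W792.LL.lap d k), hg1.comp (W792.LL.lap d).continuous⟩ with hB
  have h3 := hg5 (unif c) h1 B (fun k => rfl)
  change ∀ᵐ ω ∂(W792.WA.Pn (unif c) (Fin d → ℤ)), _
  filter_upwards [h3] with v hv
  have h4 := ac_of B (fun k => rfl) hv
  simpa only [one_mul] using h4

end

end Pool.Agent.Results.MP_562b47_mp.ACSpectrumAtEveryC
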