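import Pool.Agent.W792.WA.All4

/-!
The uniform Anderson model on `ℓ²(ℤ^d)` with kinetic energy `-Δ + b(-Δ)`, `b` a continuous function
bounded by an arbitrary `ε > 0`, with hopping amplitudes at most `ε / (1 + |x|) ^ (d / 3)`: for all
small `c` the spectrum in `(0, 4 d)` is almost surely purely absolutely continuous.
-/

namespace Pool.Agent.Results.MP_562b47_mp.ACSpectrumAtWeakDisorder

open MeasureTheory

noncomputable section

/-- The uniform law on `[-c, c]`. -/
def unif (c : ℝ) : Measure ℝ :=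
  ENNReal.ofReal (1 / (2 * c)) • volume.restrict (Set.Icc (-c) c)

/-- The hopping amplitudes of `b(-Δ)` on `ℤ^d`: the Fourier coefficients of the symbol
`b(∑ i (2 - 2 cos (2 π k_i)))`. -/
def hopping (b : ℝ → ℝ) (d : ℕ) (x : Fin d → ℤ) : ℂ :=
  UnitAddTorus.mFourierCoeff
    (fun k : UnitAddTorus (Fin d) => ((b (∑ i, (2 - 2 * (fourier 1 (k i)).re)) : ℝ) : ℂ)) x

/-- `(Δ_ω + b(-Δ)) u (j)`, where `(Δ_ω u)(j) = -∑_{|n|=1} (u(j+n) - u(j)) + ω_j u(j)`. -/
def H (b : ℝ → ℝ) {d : ℕ} (ω : (Fin d → ℤ) → ℝ) (u : (Fin d → ℤ) → ℂ) (j : Fin d → ℤ) : ℂ :=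
  -(∑ i : Fin d, ((u (j + Pi.single i 1) - u j) + (u (j - Pi.single i 1) - u j)))
    + (∑' n, hopping b d (j - n) * u n) + (ω j : ℂ) * u j

/-- `u` is square summable and `(H - z) u = δ_x`, i.e. `u = (H - z)⁻¹ δ_x`. -/
def IsGreen (b : ℝ → ℝ) {d : ℕ} (ω : (Fin d → ℤ) → ℝ) (z : ℂ) (x : Fin d → ℤ)
    (u : (Fin d → ℤ) → ℂ) : Prop :=
  Summable (fun y => ‖u y‖ ^ 2) ∧ ∀ y, H b ω u y - z * u y = if y = x then 1 else 0

/-- Purely absolutely continuous spectrum filling the interval `(a₁, a₂)`: for every site `x` the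
spectral measure `μ` of `δ_x`, i.e. the finite measure with
`⟨δ_x, (H - z)⁻¹ δ_x⟩ = ∫ dμ(E) / (E - z)`, has on `(a₁, a₂)` a density `h`, positive almost
everywhere there. -/
def ACOn (b : ℝ → ℝ) {d : ℕ} (ω : (Fin d → ℤ) → ℝ) (a₁ a₂ : ℝ) : Prop :=
  ∀ x : Fin d → ℤ, ∃ (μ : Measure ℝ) (h : ℝ → ℝ), IsFiniteMeasure μ ∧
    (∀ z : ℂ, 0 < z.im → (∃ u, IsGreen b ω z x u) ∧
      ∀ u, IsGreen b ω z x u → u x = ∫ E : ℝ, 1 / ((E : ℂ) - z) ∂μ) ∧
    Measurable h ∧ (∀ᵐ E ∂(volume.restrict (Set.Ioo a₁ a₂)), 0 < h E) ∧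
    μ.restrict (Set.Ioo a₁ a₂)
      = (volume.restrict (Set.Ioo a₁ a₂)).withDensity fun E => ENNReal.ofReal (h E)

theorem ac_of {b : ℝ → ℝ} {d : ℕ} (B : C(UnitAddTorus (Fin d), ℝ))
    (hB : ∀ k, B k = b (W792.LL.lap d k)) {lam : ℝ} {v : (Fin d → ℤ) → ℝ} {a₁ a₂ : ℝ}
    (h : W792.WA.ACIK (W792.LL.lap d + B) lam v a₁ a₂) : ACOn b (fun j => lam * v j) a₁ a₂ := by
  intro x
  obtain ⟨μ, g, h1, h2, h3, h4, h5⟩ := h x
  have e0 : (fun k : UnitAddTorus (Fin d) => ((B k : ℝ) : ℂ))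
      = fun k => ((b (∑ i, (2 - 2 * (fourier 1 (k i)).re)) : ℝ) : ℂ) := by
    funext k
    rw [hB]
    rfl
  refine ⟨μ, g, h1, fun z hz => ?_, h3, h4, h5⟩
  have e : ∀ u, W792.LL.Sol (W792.LL.hopK (W792.LL.lap d + B)) lam v z x u
      ↔ IsGreen b (fun j => lam * v j) z x u := by
    intro u
    rw [W792.WA.Br.sol_iff B lam v z x u, e0]
    unfold IsGreen H
    have e1 : ∀ y : Fin d → ℤ,
        -(∑ i : Fin d, ((u (y + Pi.single i 1) - u y) + (u (y - Pi.single i 1) - u y)))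
          = ∑ i : Fin d, (2 * u y - u (y + Pi.single i 1) - u (y - Pi.single i 1)) := by
      intro y
      rw [← Finset.sum_neg_distrib]
      exact Finset.sum_congr rfl fun i _ => by ring
    simp only [e1]
    rfl
  obtain ⟨⟨w, hw⟩, h6⟩ := h2 z hz
  exact ⟨⟨w, (e w).1 hw⟩, fun u hu => h6 u ((e u).2 hu)⟩

theorem unif_scale {c : ℝ} (hc : 0 < c) : (unif 1).map (fun t => c * t) = unif c := by
  unfold unif
  have hm : Measurable fun t : ℝ => c * t := measurable_const_mul c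
  rw [Measure.map_smul]
  have h1 : (volume.restrict (Set.Icc (-1 : ℝ) 1)).map (fun t => c * t)
      = ((volume : Measure ℝ).map (fun t => c * t)).restrict (Set.Icc (-c) c) := by
    rw [Measure.restrict_map hm measurableSet_Icc]
    congr 2
    ext t
    simp only [Set.mem_Icc, Set.mem_preimage]
    constructor
    · rintro ⟨h1, h2⟩
      constructor <;> nlinarith
    · rintro ⟨h1, h2⟩
      constructor
      · by_contra h
        push Not at h
        nlinarith
      · by_contra h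
        push Not at h
        nlinarith
  rw [h1, Real.map_volume_mul_left hc.ne', Measure.restrict_smul, smul_smul,
    ← ENNReal.ofReal_mul (by norm_num), abs_of_pos (by positivity)]
  congr 2
  field_simp

theorem unif_prob : IsProbabilityMeasure (unif 1) := by
  refine ⟨?_⟩
  unfold unif
  rw [Measure.smul_apply, Measure.restrict_apply MeasurableSet.univ, Set.univ_inter,
    Real.volume_Icc, smul_eq_mul, ← ENNReal.ofReal_mul (by norm_num)]
  norm_num

/-- For every `ε > 0` there are a continuous function `b` with `|b| ≤ ε` and hopping amplitudes at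
most `ε / (1 + |x|) ^ (d / 3)`, `|x| = max |x_i|`, and `c₀ > 0` such that for
`0 < c ≤ c₀` and `ω_j` i.i.d. uniform on `[-c, c]` the spectrum of `Δ_ω + b(-Δ)` in `(0, 4 d)` is
almost surely purely absolutely continuous, and it fills this interval. -/
theorem result (d : ℕ) (hd : 0 < d) (ε : ℝ) (hε : 0 < ε) :
    ∃ b : ℝ → ℝ, Continuous b ∧ (∀ t, |b t| ≤ ε) ∧
    (∀ x : Fin d → ℤ, ‖hopping b d x‖ ≤ ε / (1 + ‖x‖) ^ ((d : ℝ) / 3)) ∧ ∃ c₀ : ℝ, 0 < c₀ ∧
    ∀ c : ℝ, 0 < c → c ≤ c₀ →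
      ∀ᵐ ω ∂(Measure.infinitePi fun _ : Fin d → ℤ => unif c), ACOn b ω 0 (4 * d) := by
  obtain ⟨b, hb1, hb2, hbd, hb3⟩ := W792.WA.Br.lap_mainD W792.WA.Al.kfdc d hd ε hε
  have hp := unif_prob
  have hmom : Integrable (fun t : ℝ => t ^ 60) (unif 1) := by
    unfold unif
    refine Integrable.smul_measure ?_ ENNReal.ofReal_ne_top
    exact (continuous_pow 60).continuousOn.integrableOn_Icc
  have hat : ∀ a : ℝ, unif 1 {a} < 1 := by
    intro a
    unfold unif
    rw [Measure.smul_apply, Measure.restrict_apply (measurableSet_singleton a)]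
    have : volume ({a} ∩ Set.Icc (-1 : ℝ) 1) = 0 :=
      measure_mono_null Set.inter_subset_left (measure_singleton a)
    rw [this]
    simp
  obtain ⟨c₀, h0, h1⟩ := hb3 (unif 1) hmom hat
  refine ⟨b, hb1, hb2, hbd, c₀, h0, fun c hc1 hc2 => ?_⟩
  set B : C(UnitAddTorus (Fin d), ℝ) :=
    ⟨fun k => b (W792.LL.lap d k), hb1.comp (W792.LL.lap d).continuous⟩ with hB
  have h2 := h1 c hc1 hc2 B (fun k => rfl)
  have hm : Measurable fun t : ℝ => c * t := measurable_const_mul c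
  have h4 : (Measure.infinitePi fun _ : Fin d → ℤ => unif c) =
      (Measure.infinitePi fun _ : Fin d → ℤ => unif 1).map (fun v x => c * v x) := by
    have h5 := (Measure.infinitePi_map_pi (μ := fun _ : Fin d → ℤ => unif 1)
      (f := fun _ => fun t : ℝ => c * t) (fun _ => hm))
    rw [h5]
    congr 1
    funext _
    exact (unif_scale hc1).symm
  rw [h4]
  have h5 : Measurable fun (v : (Fin d → ℤ) → ℝ) (x : Fin d → ℤ) => c * v x :=
    measurable_pi_lambda _ fun x => hm.comp (measurable_pi_apply x)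
  have h6 : ∀ᵐ v ∂(Measure.infinitePi fun _ : Fin d → ℤ => unif 1),
      ACOn b (fun x => c * v x) 0 (4 * d) := by
    change ∀ᵐ v ∂(W792.WA.Pn (unif 1) (Fin d → ℤ)), _
    filter_upwards [h2] with v hv
    exact ac_of B (fun k => rfl) hv
  have hinv : Measurable fun t : ℝ => c⁻¹ * t := measurable_const_mul _
  let e : ((Fin d → ℤ) → ℝ) ≃ᵐ ((Fin d → ℤ) → ℝ) :=
    { toFun := fun v x => c * v x
      invFun := fun v x => c⁻¹ * v x
      left_inv := fun v => by
        funext x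
        field_simp
      right_inv := fun v => by
        funext x
        field_simp
      measurable_toFun := h5
      measurable_invFun := measurable_pi_lambda _ fun x => hinv.comp (measurable_pi_apply x) }
  exact (e.measurableEmbedding.ae_map_iff (p := fun ω => ACOn b ω 0 (4 * d))).2 h6

end

end Pool.Agent.Results.MP_562b47_mp.ACSpectrumAtWeakDisorder
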