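import Pool.Agent.Results.MP_562b47_mp.FlatSpectralMeasures
import Pool.Agent.W788.BK.Fin
import Pool.Agent.W788.BK.Unif
import Pool.Agent.W193.BK.ES
import Pool.Agent.W240.BK.Var
import Pool.Agent.W540.BK.Fac
import Pool.Agent.W240.BK.Fluct
import Pool.Agent.W340.BK.Conc
import Pool.Agent.W918.BK.Osc
import Pool.Agent.W240.BK.Two
import Pool.Agent.W465.BK.QB
import Pool.Agent.W475.BK.Low
import Pool.Agent.W975.BK.Sup
import Pool.Agent.W790.BK.ADM
import Pool.Agent.W475.BK.Inv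
import Pool.Agent.W351.BK.Mb
import Pool.Agent.W363.BK.Site
import Pool.Agent.W261.BK.Third

/-!
# Uniform Anderson model, `d ≥ 3`: spectral measures are flat far below the kinetic scale `c²`

`Δ_ω = -Δ + ω` on `ℤ^d`, `d ≥ 3`, with iid `ω_j` uniform on `[-c, c]`. There are `c₀ > 0` and `K`,
depending only on `d`, such that for `0 < c ≤ c₀`, with probability at least `1 - exp(-c^{-1/100})`,
the spectral measure `m` of every vector `g` supported in the box of radius `exp(c^{-1/100})`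
satisfies, at all energies `E` and for all `s ≥ c^{17/8}`,
`m [E - s, E + s] ≤ K log(1/c) s ‖g‖₁²`.
-/

set_option autoImplicit false

open scoped BigOperators ENNReal
open MeasureTheory

namespace Pool.Agent.Results.MP_562b47_mp.FlatBeyondKinetic

open Pool.Agent.Results.MP_562b47_mp.FlatSpectralMeasures

/-- **Theorem.** -/
theorem result (d : ℕ) (hd : 3 ≤ d) :
    ∃ c0 K : ℝ, 0 < c0 ∧ 0 < K ∧ ∀ c : ℝ, 0 < c → c ≤ c0 →
      ∃ G : Set ((Fin d → ℤ) → ℝ), MeasurableSet G ∧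
        1 - Real.exp (-c ^ (-(1 / 100) : ℝ)) ≤
          (Measure.infinitePi fun _ : Fin d → ℤ => unif c).real G ∧
        ∀ ω ∈ G, ∀ (g : (Fin d → ℤ) → ℂ) (B : Finset (Fin d → ℤ)),
          (∀ a ∈ B, ‖a‖ ≤ Real.exp (c ^ (-(1 / 100) : ℝ))) → (∀ a, a ∉ B → g a = 0) →
          ∀ m : Measure ℝ, IsSpectralMeasure (H ω) g m → ∀ E s : ℝ, c ^ (17 / 8 : ℝ) ≤ s →
          m.real (Set.Icc (E - s) (E + s)) ≤ K * Real.log (1 / c) * s * (∑ a ∈ B, ‖g a‖) ^ 2 := by
  obtain ⟨c0, K, hc0, hK, h⟩ := Pool.Agent.W788.BK.fin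
    (Pool.Agent.W261.BK.third Pool.Agent.W540.BK.fac)
    (Pool.Agent.W240.BK.fluct (Pool.Agent.W240.BK.var Pool.Agent.W193.BK.ES.es))
    Pool.Agent.W475.BK.inv Pool.Agent.W351.BK.mb
    (Pool.Agent.W340.BK.Conc.conc Pool.Agent.W193.BK.ES.es)
    Pool.Agent.W975.BK.sup Pool.Agent.W363.BK.site
    (Pool.Agent.W465.BK.qb (Pool.Agent.W240.BK.two Pool.Agent.W918.BK.Osc.osc))
    Pool.Agent.W475.BK.low Pool.Agent.W790.BK.ADM.adm d hd 1 one_pos
  refine ⟨c0, K, hc0, hK, ?_⟩
  intro c hc hc1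
  have hu1 := Pool.Agent.W788.LD.Uni.unif_prob 1 one_pos
  have huc := Pool.Agent.W788.LD.Uni.unif_prob c hc
  have huc' : IsProbabilityMeasure (unif c) := huc
  obtain ⟨G, hG, hP, hb⟩ := h (Pool.Agent.W788.LD.Uni.unif 1) hu1
    (Pool.Agent.W788.LD.Uni.unif_bdd 1) c hc hc1
  have hTm : Measurable (fun (ω : (Fin d → ℤ) → ℝ) x => ω x / c) := by fun_prop
  have hlaw : (Measure.infinitePi fun _ : Fin d → ℤ => unif c).map (fun ω x => ω x / c) =
      Measure.infinitePi fun _ : Fin d → ℤ => Pool.Agent.W788.LD.Uni.unif 1 := by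
    have h1 := Measure.infinitePi_map_pi (μ := fun _ : Fin d → ℤ => unif c)
      (f := fun _ (s : ℝ) => s / c) (fun _ => by fun_prop)
    rw [h1]
    congr 1
    funext _
    exact Pool.Agent.W788.BK.Unif.unif_scale c hc
  refine ⟨(fun ω x => ω x / c) ⁻¹' G, hTm hG, ?_, ?_⟩
  · have h1 : (Measure.infinitePi fun _ : Fin d → ℤ => unif c).real
        ((fun ω x => ω x / c) ⁻¹' G) =
        (Measure.infinitePi fun _ : Fin d → ℤ => Pool.Agent.W788.LD.Uni.unif 1).real G := by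
      rw [← hlaw, map_measureReal_apply hTm hG]
    rw [h1]
    exact hP
  · intro ω hω g B hB hgB m hm E s hs
    refine (hb _ hω).1 g B hB hgB m hm.1 ?_ E s hs
    intro z hz
    obtain ⟨u, hu, heq, hint⟩ := hm.2 z hz
    refine ⟨u, hu, fun x => ?_, hint⟩
    have h1 := heq x
    unfold H at h1
    unfold Pool.Agent.W788.LD.Spec.S
    have h2 : ∑ i : Fin d, ((u (x + Pi.single i 1) - u x) + (u (x - Pi.single i 1) - u x)) =
        ∑ i : Fin d, (u (x + Pi.single i 1) + u (x - Pi.single i 1)) - 2 * (d : ℂ) * u x := by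
      rw [Finset.sum_add_distrib, Finset.sum_sub_distrib, Finset.sum_sub_distrib,
        Finset.sum_add_distrib]
      simp
      ring
    rw [h2] at h1
    have h3 : c * (ω x / c) = ω x := by field_simp
    rw [h3]
    push_cast
    linear_combination h1

end Pool.Agent.Results.MP_562b47_mp.FlatBeyondKinetic
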