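import Pool.Agent.W788.LD.Uni

/-!
# Uniform Anderson model at weak disorder: spectral measures are flat above the scale `c² log³`

`Δ_ω = -Δ + ω` on `ℤ^d`, `d ≥ 2`, with iid `ω_j` uniform on `[-c, c]`. For `0 < c ≤ 1/2` and
`ρ ≥ 1/c`, with probability at least `1 - 1/ρ`, the spectral measure `m` of every vector `g`
supported in the box of radius `ρ` satisfies, at all energies `E` and for all
`K c² log²(1/c) log ρ ≤ δ ≤ 1/2`,
`m [E - δ, E + δ] ≤ K δ log²(1/δ) ‖g‖₁²`.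
The constant `K` depends only on `d`.
-/

set_option autoImplicit false

open scoped BigOperators ENNReal
open MeasureTheory

namespace Pool.Agent.Results.MP_562b47_mp.FlatSpectralMeasures

/-- the uniform law on `[-c, c]` -/
noncomputable def unif (c : ℝ) : Measure ℝ :=
  ENNReal.ofReal (1 / (2 * c)) • volume.restrict (Set.Icc (-c) c)

/-- `(Δ_ω u)(j) = -∑_{|n|=1} (u(j+n) - u(j)) + ω_j u(j)` -/
noncomputable def H {d : ℕ} (ω : (Fin d → ℤ) → ℝ) (u : (Fin d → ℤ) → ℂ) (j : Fin d → ℤ) : ℂ :=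
  -∑ i : Fin d, ((u (j + Pi.single i 1) - u j) + (u (j - Pi.single i 1) - u j)) + (ω j : ℂ) * u j

/-- `m` is the spectral measure of `A` with respect to the vector `g`: a finite measure whose
Borel transform `∫ (t - z)⁻¹ dm(t)` is `⟨g, (A - z)⁻¹ g⟩` for all non-real `z` -/
def IsSpectralMeasure {d : ℕ} (A : ((Fin d → ℤ) → ℂ) → (Fin d → ℤ) → ℂ) (g : (Fin d → ℤ) → ℂ)
    (m : Measure ℝ) : Prop :=
  IsFiniteMeasure m ∧ ∀ z : ℂ, z.im ≠ 0 → ∃ u : (Fin d → ℤ) → ℂ,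
    (Summable fun x => ‖u x‖ ^ 2) ∧ (∀ x, A u x - z * u x = g x) ∧
    ∫ t : ℝ, ((t : ℂ) - z)⁻¹ ∂m = ∑' x, (starRingEnd ℂ) (g x) * u x

/-- **Theorem.** -/
theorem result (d : ℕ) (hd : 2 ≤ d) :
    ∃ K : ℝ, 0 < K ∧ ∀ c ρ : ℝ, 0 < c → c ≤ 1 / 2 → 1 / c ≤ ρ →
      ∃ G : Set ((Fin d → ℤ) → ℝ), MeasurableSet G ∧
        1 - 1 / ρ ≤ (Measure.infinitePi fun _ : Fin d → ℤ => unif c).real G ∧
        ∀ ω ∈ G, ∀ (g : (Fin d → ℤ) → ℂ) (B : Finset (Fin d → ℤ)), (∀ a ∈ B, ‖a‖ ≤ ρ) →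
          (∀ a, a ∉ B → g a = 0) → ∀ m : Measure ℝ, IsSpectralMeasure (H ω) g m →
          ∀ E δ : ℝ, K * (c ^ 2 * Real.log (1 / c) ^ 2 * Real.log ρ) ≤ δ → δ ≤ 1 / 2 →
          m.real (Set.Icc (E - δ) (E + δ)) ≤
            K * δ * Real.log (1 / δ) ^ 2 * (∑ a ∈ B, ‖g a‖) ^ 2 := by
  obtain ⟨K, hK, h⟩ := Pool.Agent.W788.LD.Uni.uni hd
  refine ⟨K, hK, ?_⟩
  intro c ρ hc hc1 hρ
  obtain ⟨G, hG, hP, hb⟩ := h c ρ hc hc1 hρ
  refine ⟨G, hG, hP, ?_⟩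
  intro ω hω g B hB hgB m hm E δ hδ hδ1
  refine hb ω hω g B hB hgB m hm.1 ?_ E δ hδ hδ1
  intro z hz
  obtain ⟨u, hu, heq, hint⟩ := hm.2 z hz
  refine ⟨u, hu, fun x => ?_, hint⟩
  have h1 := heq x
  unfold H at h1
  unfold Pool.Agent.W788.LD.Spec.S
  have h2 : ∑ i : Fin d, ((u (x + Pi.single i 1) - u x) + (u (x - Pi.single i 1) - u x)) =
      ∑ i : Fin d, (u (x + Pi.single i 1) + u (x - Pi.single i 1)) - 2 * (d : ℂ) * u x := by
    rw [Finset.sum_add_distrib, Finset.sum_sub_distrib, Finset.sum_sub_distrib,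
      Finset.sum_add_distrib]
    simp
    ring
  rw [h2] at h1
  push_cast
  linear_combination h1

end Pool.Agent.Results.MP_562b47_mp.FlatSpectralMeasures
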